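import Pool.Agent.R60.Steiner.Bounds

/-!
# The number of all triples with a Steiner system: definitions, trivial systems, necessary conditions
-/

set_option autoImplicit false
open Finset

namespace Pool.Agent.U296.ST

open Pool.Agent.R60.Steiner

/-- a Steiner system `S(n, q, r)` exists -/
def Ex (n q r : ℕ) : Prop := ∃ B : Finset (Finset (Fin n)), (∀ b ∈ B, b.card = q) ∧
  ∀ s : Finset (Fin n), s.card = r → ∃! b, b ∈ B ∧ s ⊆ b

/-- the triple is nontrivial and satisfies (D) and Tits' inequality -/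
def Opn (n q r : ℕ) : Prop := 1 ≤ r ∧ r < q ∧ q < n ∧ DivCond n q r ∧ (r + 1) * (q - r + 1) ≤ n

/-- the triples `(n, q, r)`, `1 ≤ r ≤ q ≤ n ≤ X`, with the property `P` -/
def trip (P : ℕ → ℕ → ℕ → Prop) (X : ℕ) : Set (ℕ × ℕ × ℕ) :=
  {t | 1 ≤ t.2.2 ∧ t.2.2 ≤ t.2.1 ∧ t.2.1 ≤ t.1 ∧ t.1 ≤ X ∧ P t.1 t.2.1 t.2.2}

/-- their number -/
noncomputable def num (P : ℕ → ℕ → ℕ → Prop) (X : ℕ) : ℕ := (trip P X).ncard

theorem trip_finite (P : ℕ → ℕ → ℕ → Prop) (X : ℕ) : (trip P X).Finite := by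
  refine ((Finset.Icc 1 X ×ˢ Finset.Icc 1 X ×ˢ Finset.Icc 1 X).finite_toSet).subset ?_
  rintro ⟨n, q, r⟩ ⟨h1, h2, h3, h4, -⟩
  simp only at h1 h2 h3 h4
  simp only [Finset.coe_product, Finset.coe_Icc, Set.mem_prod, Set.mem_Icc]
  omega

theorem num_mono {P P' : ℕ → ℕ → ℕ → Prop} {X : ℕ} (h : ∀ n q r, 1 ≤ r → r ≤ q → q ≤ n → P n q r → P' n q r) :
    num P X ≤ num P' X := by
  refine Set.ncard_le_ncard ?_ (trip_finite P' X)
  rintro ⟨n, q, r⟩ ⟨h1, h2, h3, h4, h5⟩
  exact ⟨h1, h2, h3, h4, h n q r h1 h2 h3 h5⟩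

theorem num_or (P P' : ℕ → ℕ → ℕ → Prop) (X : ℕ) :
    num (fun n q r => P n q r ∨ P' n q r) X ≤ num P X + num P' X := by
  refine le_trans (Set.ncard_le_ncard ?_ ((trip_finite P X).union (trip_finite P' X)))
    (Set.ncard_union_le _ _)
  rintro ⟨n, q, r⟩ ⟨h1, h2, h3, h4, h5 | h5⟩
  · exact Or.inl ⟨h1, h2, h3, h4, h5⟩
  · exact Or.inr ⟨h1, h2, h3, h4, h5⟩

/-- the number of the trivial triples -/
theorem num_triv (X : ℕ) : num (fun n q r => q = r ∨ q = n) X = X ^ 2 := by
  classical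
  set f : ℕ × ℕ → ℕ × ℕ × ℕ := fun p => if p.2 ≤ p.1 then (p.1, p.2, p.2) else (p.2, p.2, p.1) with hf
  have h1 : trip (fun n q r => q = r ∨ q = n) X =
      ((Finset.Icc 1 X ×ˢ Finset.Icc 1 X).image f : Finset (ℕ × ℕ × ℕ)) := by
    ext ⟨n, q, r⟩
    simp only [trip, Set.mem_ofPred_eq, Finset.coe_image, Set.mem_image, Finset.mem_coe,
      Finset.mem_product, Finset.mem_Icc, Prod.exists]
    constructor
    · rintro ⟨h1, h2, h3, h4, h5⟩
      by_cases h : q = r
      · refine ⟨n, r, by omega, ?_⟩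
        rw [hf]
        simp only
        rw [if_pos (by omega), h]
      · refine ⟨r, n, by omega, ?_⟩
        rw [hf]
        simp only
        rw [if_neg (by omega)]
        have : q = n := by tauto
        rw [this]
    · rintro ⟨a, b, ⟨h1, h2⟩, h3⟩
      rw [hf] at h3
      simp only at h3
      split_ifs at h3 with h4
      · simp only [Prod.mk.injEq] at h3
        omega
      · simp only [Prod.mk.injEq] at h3
        omega
  have h2 : Set.InjOn f (Finset.Icc 1 X ×ˢ Finset.Icc 1 X : Finset (ℕ × ℕ)) := by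
    rintro ⟨a, b⟩ - ⟨a', b'⟩ - h
    rw [hf] at h
    simp only at h
    split_ifs at h with h3 h4 h4 <;> simp only [Prod.mk.injEq] at h ⊢ <;> omega
  unfold num
  rw [h1, Set.ncard_coe_finset, Finset.card_image_of_injOn h2, Finset.card_product, Nat.card_Icc]
  simp [sq]

theorem ex_triv {n q r : ℕ} (h : q = r ∨ q = n) : Ex n q r := by
  classical
  rcases h with rfl | rfl
  · refine ⟨Finset.powersetCard q Finset.univ, fun b hb => (Finset.mem_powersetCard.1 hb).2, ?_⟩
    intro s hs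
    refine ⟨s, ⟨Finset.mem_powersetCard.2 ⟨Finset.subset_univ _, hs⟩, Finset.Subset.refl _⟩, ?_⟩
    rintro b ⟨hb, hsb⟩
    have := (Finset.mem_powersetCard.1 hb).2
    exact (Finset.eq_of_subset_of_card_le hsb (by omega)).symm
  · refine ⟨{Finset.univ}, ?_, ?_⟩
    · intro b hb
      rw [Finset.mem_singleton.1 hb, Finset.card_univ, Fintype.card_fin]
    · intro s _
      refine ⟨Finset.univ, ⟨Finset.mem_singleton_self _, Finset.subset_univ _⟩, ?_⟩
      rintro b ⟨hb, -⟩
      exact Finset.mem_singleton.1 hb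

theorem opn_of_ex {n q r : ℕ} (h1 : 1 ≤ r) (h2 : r < q) (h3 : q < n) (h : Ex n q r) :
    Opn n q r := by
  obtain ⟨B, hB⟩ := h
  have hB' : IsSteiner n q r B := hB
  exact ⟨h1, h2, h3, divCond_of_isSteiner (by omega) hB', tits hB' h1 h2.le h3⟩

theorem partA (X : ℕ) : X ^ 2 ≤ num Ex X ∧ num Ex X ≤ X ^ 2 + num Opn X := by
  constructor
  · rw [← num_triv X]
    exact num_mono fun n q r _ _ _ h => ex_triv h
  · rw [← num_triv X]
    refine le_trans (num_mono (P' := fun n q r => (q = r ∨ q = n) ∨ Opn n q r) ?_) (num_or _ _ X)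
    intro n q r h1 h2 h3 h
    by_cases h4 : q = r ∨ q = n
    · exact Or.inl h4
    · exact Or.inr (opn_of_ex h1 (by omega) (by omega) h)

/-! ### The criterion, from `Pool.Agent.R60.Steiner.Final` -/

theorem mult_iff {a r P : ℕ} (hP : 0 < P) :
    (∃ c, a < c ∧ c ≤ a + r ∧ P ∣ c) ↔ P * (a / P + 1) ≤ a + r := by
  have hadd : P * (a / P) + a % P = a := Nat.div_add_mod a P
  have hlt : a % P < P := Nat.mod_lt _ hP
  have hmul : P * (a / P + 1) = P * (a / P) + P := by ring
  constructor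
  · rintro ⟨c, h1, h2, d, rfl⟩
    have : a / P + 1 ≤ d := by
      by_contra hc
      push Not at hc
      have : P * d ≤ P * (a / P) := Nat.mul_le_mul_left _ (by omega)
      omega
    exact (Nat.mul_le_mul_left _ this).trans h2
  · intro h
    exact ⟨P * (a / P + 1), by omega, h, dvd_mul_right _ _⟩

theorem carry_iff {a b P : ℕ} (hP : 0 < P) : a % P + b % P < P ↔ a % P ≤ (a + b) % P := by
  have h1 : a % P < P := Nat.mod_lt _ hP
  have h2 : b % P < P := Nat.mod_lt _ hP
  constructor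
  · intro h
    rw [Nat.add_mod, Nat.mod_eq_of_lt h]
    exact Nat.le_add_right _ _
  · intro h
    by_contra hc
    push Not at hc
    have h3 : (a + b) % P = a % P + b % P - P := by
      rw [Nat.add_mod, Nat.mod_eq_sub_mod hc, Nat.mod_eq_of_lt (by omega)]
    omega

theorem criterion {n q r : ℕ} (hrq : r ≤ q) (hqn : q ≤ n) :
    DivCond n q r ↔ ∀ p e : ℕ, p.Prime → 0 < e → (∃ c, q - r < c ∧ c ≤ q ∧ p ^ e ∣ c) →
      (q - r) % p ^ e ≤ (n - r) % p ^ e := by
  rw [divCond_iff_red hrq hqn, red_iff_noCarry]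
  have e1 : q = q - r + r := by omega
  have e2 : n - r = (q - r) + (n - q) := by omega
  constructor
  · intro h p e hp he hc
    have hP : 0 < p ^ e := pow_pos hp.pos e
    rw [e2, ← carry_iff hP]
    apply h p e hp he
    rw [← mult_iff hP]
    obtain ⟨c, h1, h2, h3⟩ := hc
    exact ⟨c, h1, by omega, h3⟩
  · intro h p e hp he hc
    have hP : 0 < p ^ e := pow_pos hp.pos e
    rw [carry_iff hP, ← e2]
    apply h p e hp he
    rw [← mult_iff hP] at hc
    obtain ⟨c, h1, h2, h3⟩ := hc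
    exact ⟨c, h1, by omega, h3⟩

/-- the last divisibility condition -/
theorem opn_dvd {n q r : ℕ} (h : Opn n q r) : (q - r + 1) ∣ (n - r + 1) := by
  obtain ⟨h1, h2, h3, h4, -⟩ := h
  have h5 := h4 (r - 1) (by omega)
  rw [show q - (r - 1) = q - r + 1 by omega, show n - (r - 1) = n - r + 1 by omega,
    show r - (r - 1) = 1 by omega, Nat.choose_one_right, Nat.choose_one_right] at h5
  exact h5

/-- the conditions for the primes up to `r` -/
theorem opn_prime {n q r : ℕ} (h : Opn n q r) {p : ℕ} (hp : p.Prime) (hpr : p ≤ r) :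
    (q - r) % p ≤ (n - r) % p := by
  obtain ⟨h1, h2, h3, h4, -⟩ := h
  have h5 := (criterion h2.le h3.le).1 h4 p 1 hp one_pos
  rw [pow_one] at h5
  apply h5
  refine ⟨p * ((q - r) / p + 1), ?_, ?_, dvd_mul_right _ _⟩
  · have := Nat.lt_mul_div_succ (q - r) hp.pos
    exact this
  · have := Nat.mul_div_le (q - r) p
    rw [mul_add, mul_one]
    omega

/-- `q = r + 1`: the prime factors of `n - r` exceed `q` -/
theorem opn_one {n r : ℕ} (h : Opn n (r + 1) r) {p : ℕ} (hp : p.Prime) (hpn : p ∣ n - r) :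
    r + 2 ≤ p := by
  by_contra hc
  obtain ⟨h1, h2, h3, h4, -⟩ := h
  have h5 := (criterion h2.le h3.le).1 h4 p 1 hp one_pos
  rw [pow_one] at h5
  have h6 := h5 ⟨p, by have := hp.two_le; omega, by omega, dvd_rfl⟩
  rw [show r + 1 - r = 1 by omega, Nat.mod_eq_of_lt hp.one_lt, Nat.mod_eq_zero_of_dvd hpn] at h6
  omega

/-- the main class -/
theorem opn_main {r p : ℕ} (hr : 1 ≤ r) (hp : p.Prime) (hrp : r + 2 ≤ p) : Opn (r + p) (r + 1) r := by
  refine ⟨hr, by omega, by omega, ?_, ?_⟩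
  · rw [criterion (by omega) (by omega)]
    intro l e hl he hc
    obtain ⟨c, h1, h2, h3⟩ := hc
    have h4 : 1 < l ^ e := Nat.one_lt_pow he.ne' hl.one_lt
    rw [show r + 1 - r = 1 by omega, show r + p - r = p by omega, Nat.mod_eq_of_lt h4]
    rw [Nat.one_le_iff_ne_zero]
    intro h5
    have h6 : l ^ e ∣ p := Nat.dvd_of_mod_eq_zero h5
    have h7 : l ∣ p := (dvd_pow_self l he.ne').trans h6
    have h8 : l = p := (Nat.prime_dvd_prime_iff_eq hl hp).1 h7
    have h9 : l ∣ c := (dvd_pow_self l he.ne').trans h3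
    have h10 := Nat.le_of_dvd (by omega) h9
    omega
  · rw [show r + 1 - r + 1 = 2 by omega]
    omega

end Pool.Agent.U296.ST
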