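import Pool.Agent.U296.ST.Pnt

/-!
# The number of the triples `(r + p, r + 1, r)`, `p` prime, `p > r + 1`
-/

set_option autoImplicit false
open Finset Filter Topology

namespace Pool.Agent.U296.ST

/-- the main class `(r + p, r + 1, r)`, `p > r + 1` prime -/
def Mn (n q r : ℕ) : Prop := q = r + 1 ∧ (n - r).Prime ∧ q < n - r

theorem num_Mn (X : ℕ) : num Mn X =
    ∑ r ∈ Icc 1 ((X - 1) / 2), ((Ioc (r + 1) (X - r)).filter Nat.Prime).card := by
  classical
  rw [← Finset.card_sigma]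
  set S := (Icc 1 ((X - 1) / 2)).sigma fun r => (Ioc (r + 1) (X - r)).filter Nat.Prime with hS
  set f : (Σ _ : ℕ, ℕ) → ℕ × ℕ × ℕ := fun x => (x.1 + x.2, x.1 + 1, x.1) with hf
  have h1 : trip Mn X = (S.image f : Finset (ℕ × ℕ × ℕ)) := by
    ext ⟨n, q, r⟩
    simp only [Finset.coe_image, Set.mem_image, Finset.mem_coe]
    constructor
    · rintro ⟨h1, h2, h3, h4, h5, h6, h7⟩
      simp only at h1 h2 h3 h4 h5 h6 h7
      refine ⟨⟨r, n - r⟩, ?_, ?_⟩
      · rw [hS, Finset.mem_sigma, Finset.mem_filter, Finset.mem_Icc, Finset.mem_Ioc]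
        simp only
        refine ⟨⟨h1, by omega⟩, ⟨by omega, by omega⟩, h6⟩
      · rw [hf]
        simp only [Prod.mk.injEq, and_true]
        refine ⟨?_, h5.symm⟩
        omega
    · rintro ⟨⟨r', p⟩, h1, h2⟩
      rw [hS, Finset.mem_sigma, Finset.mem_filter, Finset.mem_Icc, Finset.mem_Ioc] at h1
      simp only at h1
      rw [hf] at h2
      simp only [Prod.mk.injEq] at h2
      obtain ⟨⟨h3, h4⟩, ⟨h5, h6⟩, h7⟩ := h1
      obtain ⟨rfl, rfl, rfl⟩ := h2
      have h8 : p ≤ X - r' := h6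
      have h9 : r' + 1 < p := h5
      refine ⟨h3, ?_, ?_, ?_, rfl, ?_, ?_⟩
      · simp only
        omega
      · simp only
        omega
      · simp only
        omega
      · simp only
        rw [show r' + p - r' = p by omega]
        exact h7
      · simp only
        omega
  have h2 : Set.InjOn f S := by
    rintro ⟨a, b⟩ - ⟨a', b'⟩ - h
    rw [hf] at h
    simp only [Prod.mk.injEq] at h
    have h3 : a = a' := h.2.2
    have h4 : b = b' := by omega
    rw [h3, h4]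
  unfold num
  rw [h1, Set.ncard_coe_finset, Finset.card_image_of_injOn h2]

theorem card_Ioc_prime {a b : ℕ} (h : a ≤ b) :
    (((Ioc a b).filter Nat.Prime).card : ℝ) = Nat.primeCounting b - Nat.primeCounting a := by
  have h1 : ∀ n, Nat.primeCounting n = ((range (n + 1)).filter Nat.Prime).card := by
    intro n
    unfold Nat.primeCounting Nat.primeCounting'
    rw [Nat.count_eq_card_filter_range]
  have h2 : (range (b + 1)).filter Nat.Prime =
      (range (a + 1)).filter Nat.Prime ∪ (Ioc a b).filter Nat.Prime := by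
    rw [← Finset.filter_union]
    congr 1
    ext x
    simp only [Finset.mem_union, Finset.mem_range, Finset.mem_Ioc]
    omega
  have h3 : Disjoint ((range (a + 1)).filter Nat.Prime) ((Ioc a b).filter Nat.Prime) := by
    apply Finset.disjoint_filter_filter
    rw [Finset.disjoint_left]
    intro x hx hx'
    simp only [Finset.mem_range, Finset.mem_Ioc] at hx hx'
    omega
  rw [h1 b, h1 a, h2, Finset.card_union_of_disjoint h3]
  push_cast
  ring

theorem sum_lin (X : ℝ) (h : ℕ) :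
    ∑ r ∈ Icc 1 h, ((X - r) - ((r : ℝ) + 1)) = h * X - (h : ℝ) ^ 2 - 2 * h := by
  induction h with
  | zero => simp
  | succ h ih =>
    rw [Finset.sum_Icc_succ_top (by omega), ih]
    push_cast
    ring

theorem Mn_asymp : Tendsto (fun X : ℕ => (num Mn X : ℝ) * Real.log X / (X : ℝ) ^ 2) atTop
    (𝓝 (1 / 4)) := by
  rw [Metric.tendsto_atTop]
  intro ε hε
  set ε' := min (ε / 4) 1 with hε'
  have hε0 : 0 < ε' := lt_min (by positivity) one_pos
  obtain ⟨X₀, hX₀⟩ := uniform_pi hε0 (min_le_right _ _)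
  refine ⟨max (max X₀ 3) (⌈4 / ε⌉₊), fun X hX => ?_⟩
  have hX1 : X₀ ≤ X := (le_max_left _ _).trans ((le_max_left _ _).trans hX)
  have hX2 : 3 ≤ X := (le_max_right _ _).trans ((le_max_left _ _).trans hX)
  have hX3 : ⌈4 / ε⌉₊ ≤ X := (le_max_right _ _).trans hX
  have hX4 : 4 / ε ≤ X := (Nat.le_ceil _).trans (by exact_mod_cast hX3)
  rw [div_le_iff₀ hε] at hX4
  have hXR : (3 : ℝ) ≤ X := by exact_mod_cast hX2
  have hX0 : (0 : ℝ) < X := by linarith
  have hlog : 0 < Real.log X := Real.log_pos (by linarith)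
  set h := (X - 1) / 2 with hh
  have hhX : 2 * h + 1 ≤ X ∧ X ≤ 2 * h + 2 := by omega
  have hhR1 : 2 * (h : ℝ) + 1 ≤ X := by exact_mod_cast hhX.1
  have hhR2 : (X : ℝ) ≤ 2 * h + 2 := by exact_mod_cast hhX.2
  have hh0 : (0 : ℝ) ≤ h := Nat.cast_nonneg _
  have hnum : (num Mn X : ℝ) = ∑ r ∈ Icc 1 h,
      ((Nat.primeCounting (X - r) : ℝ) - Nat.primeCounting (r + 1)) := by
    rw [num_Mn]
    push_cast
    refine Finset.sum_congr rfl fun r hr => ?_
    rw [Finset.mem_Icc] at hr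
    exact card_Ioc_prime (by omega)
  have hdiff : |(num Mn X : ℝ) - ((h : ℝ) * X - (h : ℝ) ^ 2 - 2 * h) / Real.log X| ≤
      h * (2 * (ε' * X / Real.log X)) := by
    rw [← sum_lin, Finset.sum_div, hnum, ← Finset.sum_sub_distrib]
    refine (Finset.abs_sum_le_sum_abs _ _).trans ?_
    have : ∀ r ∈ Icc 1 h, |((Nat.primeCounting (X - r) : ℝ) - Nat.primeCounting (r + 1)) -
        (((X : ℝ) - r) - ((r : ℝ) + 1)) / Real.log X| ≤ 2 * (ε' * X / Real.log X) := by
      intro r hr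
      rw [Finset.mem_Icc] at hr
      have e1 := hX₀ X hX1 (X - r) (Nat.sub_le _ _)
      have e2 := hX₀ X hX1 (r + 1) (by omega)
      rw [Nat.cast_sub (by omega)] at e1
      push_cast at e2
      have e3 : ((Nat.primeCounting (X - r) : ℝ) - Nat.primeCounting (r + 1)) -
        (((X : ℝ) - r) - ((r : ℝ) + 1)) / Real.log X =
        ((Nat.primeCounting (X - r) : ℝ) - ((X : ℝ) - r) / Real.log X) -
        ((Nat.primeCounting (r + 1) : ℝ) - ((r : ℝ) + 1) / Real.log X) := by ring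
      rw [e3]
      rw [abs_le] at e1 e2 ⊢
      constructor <;> linarith [e1.1, e1.2, e2.1, e2.2]
    refine (Finset.sum_le_sum this).trans ?_
    rw [Finset.sum_const, Nat.card_Icc, nsmul_eq_mul, Nat.add_sub_cancel]
  have hX2' : (0 : ℝ) < (X : ℝ) ^ 2 := by positivity
  have e1 : |(num Mn X : ℝ) * Real.log X / (X : ℝ) ^ 2 -
      ((h : ℝ) * X - (h : ℝ) ^ 2 - 2 * h) / (X : ℝ) ^ 2| ≤ ε' := by
    have e2 : (num Mn X : ℝ) * Real.log X / (X : ℝ) ^ 2 -
      ((h : ℝ) * X - (h : ℝ) ^ 2 - 2 * h) / (X : ℝ) ^ 2 =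
      ((num Mn X : ℝ) - ((h : ℝ) * X - (h : ℝ) ^ 2 - 2 * h) / Real.log X) *
        (Real.log X / (X : ℝ) ^ 2) := by
      field_simp
    rw [e2, abs_mul, abs_of_pos (show 0 < Real.log X / (X : ℝ) ^ 2 by positivity)]
    calc _ ≤ (h * (2 * (ε' * X / Real.log X))) * (Real.log X / (X : ℝ) ^ 2) :=
          mul_le_mul_of_nonneg_right hdiff (by positivity)
      _ = 2 * h / X * ε' := by field_simp
      _ ≤ 1 * ε' := by
          apply mul_le_mul_of_nonneg_right _ hε0.le
          rw [div_le_one hX0]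
          linarith
      _ = ε' := one_mul _
  have e2 : |((h : ℝ) * X - (h : ℝ) ^ 2 - 2 * h) / (X : ℝ) ^ 2 - 1 / 4| ≤ (1 : ℝ) / X := by
    have e3 : ((h : ℝ) * X - (h : ℝ) ^ 2 - 2 * h) / (X : ℝ) ^ 2 - 1 / 4 =
        -(((X : ℝ) - 2 * h) ^ 2 + 8 * h) / (4 * (X : ℝ) ^ 2) := by
      field_simp
      ring
    rw [e3, neg_div, abs_neg, abs_of_nonneg (by positivity), div_le_div_iff₀ (by positivity) hX0]
    have e4 : ((X : ℝ) - 2 * h) ^ 2 ≤ 4 := by nlinarith
    nlinarith
  rw [Real.dist_eq]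
  have e3 : (1 : ℝ) / X ≤ ε / 4 := by
    rw [div_le_div_iff₀ hX0 (by norm_num)]
    linarith
  calc |(num Mn X : ℝ) * Real.log X / (X : ℝ) ^ 2 - 1 / 4|
      = |((num Mn X : ℝ) * Real.log X / (X : ℝ) ^ 2 -
      ((h : ℝ) * X - (h : ℝ) ^ 2 - 2 * h) / (X : ℝ) ^ 2) +
      (((h : ℝ) * X - (h : ℝ) ^ 2 - 2 * h) / (X : ℝ) ^ 2 - 1 / 4)| := by
        congr 1; ring
    _ ≤ ε' + (1 : ℝ) / X := (abs_add_le _ _).trans (add_le_add e1 e2)
    _ < ε := by
        have := min_le_left (ε / 4) 1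
        linarith

end Pool.Agent.U296.ST
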