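import Pool.Agent.U296.ST.Rest

/-!
# The asymptotic formulas
-/

set_option autoImplicit false
open Finset Filter Topology

namespace Pool.Agent.U296.ST

theorem rest_bound : ∃ C : ℝ, 0 < C ∧ ∃ X₀ : ℕ, ∀ X : ℕ, X₀ ≤ X →
    (num Rs X : ℝ) ≤ C * (X : ℝ) ^ 2 * Real.log (Real.log X) ^ 3 / Real.log X ^ 2 := by
  obtain ⟨K, hK, X₁, hs⟩ := sieve_d
  refine ⟨8 * K + 4, by positivity, ?_⟩
  have hlogs : Tendsto (fun X : ℕ => Real.log X) atTop atTop :=
    Real.tendsto_log_atTop.comp (tendsto_natCast_atTop_atTop (R := ℝ))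
  have hlo : ∀ n : ℕ, ∀ᶠ X : ℕ in atTop, Real.log X ^ n ≤ X := by
    intro n
    have h1 := (Real.isLittleO_pow_log_id_atTop (n := n)).bound (show (0 : ℝ) < 1 by norm_num)
    have h2 := (tendsto_natCast_atTop_atTop (R := ℝ)).eventually h1
    filter_upwards [h2, eventually_ge_atTop 1] with X hX hX1
    have h3 : (1 : ℝ) ≤ X := by exact_mod_cast hX1
    rw [Real.norm_eq_abs, abs_of_nonneg (pow_nonneg (Real.log_nonneg h3) n), one_mul, id,
      Real.norm_eq_abs, abs_of_nonneg (by linarith)] at hX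
    exact hX
  obtain ⟨X₂, hX₂⟩ := eventually_atTop.1 ((hlo 2048).and ((hlo 8).and
    ((hlogs.eventually_ge_atTop (Real.exp 1)).and ((eventually_ge_atTop 3).and
      (eventually_ge_atTop X₁)))))
  refine ⟨X₂, fun X hX => ?_⟩
  obtain ⟨h2048, h8, hlog1, hX3, hX1⟩ := hX₂ X hX
  set L := Real.log X with hL
  have hXR : (3 : ℝ) ≤ X := by exact_mod_cast hX3
  have hX0 : (0 : ℝ) < X := by linarith
  have he : (2.7 : ℝ) < Real.exp 1 := by
    have := Real.exp_one_gt_d9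
    linarith
  have hL0 : 0 < L := by linarith
  have hLL : 1 ≤ Real.log L := by
    rw [Real.le_log_iff_exp_le hL0]
    exact hlog1
  set LL := Real.log L with hLLdef
  have hLL3 : 1 ≤ LL ^ 3 := one_le_pow₀ hLL
  set D := ⌊L ^ 2⌋₊ with hD
  have hD1 : (D : ℝ) ≤ L ^ 2 := Nat.floor_le (by positivity)
  have hD2 : L ^ 2 < D + 1 := Nat.lt_floor_add_one _
  have hD3 : 3 ≤ D := by
    apply Nat.le_floor
    push_cast
    nlinarith
  have hDR : (3 : ℝ) ≤ D := by exact_mod_cast hD3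
  have hDX : (D : ℝ) ^ 1024 ≤ X := by
    calc (D : ℝ) ^ 1024 ≤ (L ^ 2) ^ 1024 := pow_le_pow_left₀ (by positivity) hD1 _
      _ = L ^ 2048 := by rw [← pow_mul]
      _ ≤ X := h2048
  have hlogD : Real.log D ≤ 2 * LL := by
    have h1 := Real.log_le_log (by linarith) hD1
    rw [Real.log_pow] at h1
    exact_mod_cast h1
  have hlogD0 : 0 ≤ Real.log D := Real.log_nonneg (by linarith)
  -- the square root
  have hsq : (Nat.sqrt X : ℝ) ≤ Real.sqrt X := Real.nat_sqrt_le_real_sqrt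
  have hs4 : L ^ 4 * Real.sqrt X ≤ X := by
    have h1 : L ^ 4 ≤ Real.sqrt X := by
      apply Real.le_sqrt_of_sq_le
      calc (L ^ 4) ^ 2 = L ^ 8 := by rw [← pow_mul]
        _ ≤ (X : ℝ) := h8
    calc L ^ 4 * Real.sqrt X ≤ Real.sqrt X * Real.sqrt X :=
          mul_le_mul_of_nonneg_right h1 (Real.sqrt_nonneg _)
      _ = X := Real.mul_self_sqrt hX0.le
  have hL1 : 1 ≤ L := by linarith
  have hL2 : L ^ 2 ≤ L ^ 4 := pow_le_pow_right₀ hL1 (by norm_num)
  -- the four parts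
  have p1 : (Nat.sqrt X : ℝ) * X ≤ (X : ℝ) ^ 2 * LL ^ 3 / L ^ 2 := by
    rw [le_div_iff₀ (by positivity)]
    calc (Nat.sqrt X : ℝ) * X * L ^ 2 ≤ Real.sqrt X * X * L ^ 4 := by
          apply mul_le_mul _ hL2 (by positivity) (by positivity)
          exact mul_le_mul_of_nonneg_right hsq hX0.le
      _ = (L ^ 4 * Real.sqrt X) * X := by ring
      _ ≤ X * X := mul_le_mul_of_nonneg_right hs4 hX0.le
      _ = (X : ℝ) ^ 2 * 1 := by ring
      _ ≤ (X : ℝ) ^ 2 * LL ^ 3 := mul_le_mul_of_nonneg_left hLL3 (by positivity)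
  have p2 : (D : ℝ) * ((Nat.sqrt X : ℝ) * X) ≤ (X : ℝ) ^ 2 * LL ^ 3 / L ^ 2 := by
    rw [le_div_iff₀ (by positivity)]
    calc (D : ℝ) * ((Nat.sqrt X : ℝ) * X) * L ^ 2 ≤ L ^ 2 * (Real.sqrt X * X) * L ^ 2 := by
          apply mul_le_mul_of_nonneg_right _ (by positivity)
          apply mul_le_mul hD1 _ (by positivity) (by positivity)
          exact mul_le_mul_of_nonneg_right hsq hX0.le
      _ = (L ^ 4 * Real.sqrt X) * X := by ring
      _ ≤ X * X := mul_le_mul_of_nonneg_right hs4 hX0.le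
      _ = (X : ℝ) ^ 2 * 1 := by ring
      _ ≤ (X : ℝ) ^ 2 * LL ^ 3 := mul_le_mul_of_nonneg_left hLL3 (by positivity)
  have p3 : ((∑ d ∈ Icc (D + 1) X, (X / (d + 1)) * ((X + 1) / (d + 1)) : ℕ) : ℝ) ≤
      2 * ((X : ℝ) ^ 2 * LL ^ 3 / L ^ 2) := by
    push_cast
    have h1 : ∀ d ∈ Icc (D + 1) X, ((X / (d + 1) : ℕ) : ℝ) * (((X + 1) / (d + 1) : ℕ) : ℝ) ≤
        ((X : ℝ) * (X + 1)) * (1 / ((d : ℝ) + 1) ^ 2) := by
      intro d _
      have e1 : ((X / (d + 1) : ℕ) : ℝ) ≤ (X : ℝ) / ((d : ℝ) + 1) := by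
        have := Nat.cast_div_le (m := X) (n := d + 1) (α := ℝ)
        push_cast at this
        exact this
      have e2 : (((X + 1) / (d + 1) : ℕ) : ℝ) ≤ ((X : ℝ) + 1) / ((d : ℝ) + 1) := by
        have := Nat.cast_div_le (m := X + 1) (n := d + 1) (α := ℝ)
        push_cast at this
        exact this
      calc _ ≤ ((X : ℝ) / ((d : ℝ) + 1)) * (((X : ℝ) + 1) / ((d : ℝ) + 1)) :=
            mul_le_mul e1 e2 (Nat.cast_nonneg _) (by positivity)
        _ = _ := by field_simp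
    refine (Finset.sum_le_sum h1).trans ?_
    rw [← Finset.mul_sum]
    have h2 : ∑ d ∈ Icc (D + 1) X, 1 / ((d : ℝ) + 1) ^ 2 ≤ 1 / L ^ 2 := by
      rcases le_or_gt D X with h3 | h3
      · refine (tel_a D X h3).trans ?_
        have h4 : 1 / ((D : ℝ) + 1) ≤ 1 / L ^ 2 := one_div_le_one_div_of_le (by positivity) hD2.le
        have h5 : 0 ≤ 1 / ((X : ℝ) + 1) := by positivity
        linarith
      · rw [Finset.Icc_eq_empty (by omega), Finset.sum_empty]
        positivity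
    calc (X : ℝ) * (X + 1) * ∑ d ∈ Icc (D + 1) X, 1 / ((d : ℝ) + 1) ^ 2
        ≤ (X : ℝ) * (X + 1) * (1 / L ^ 2) := mul_le_mul_of_nonneg_left h2 (by positivity)
      _ ≤ (X : ℝ) * (2 * X) * (LL ^ 3 / L ^ 2) := by
          apply mul_le_mul _ _ (by positivity) (by positivity)
          · apply mul_le_mul_of_nonneg_left _ hX0.le
            linarith
          · exact div_le_div_of_nonneg_right hLL3 (by positivity)
      _ = _ := by ring
  have p4 : ((∑ d ∈ Icc 2 D, (X / (d + 1)) * (SS X d).card : ℕ) : ℝ) ≤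
      8 * K * ((X : ℝ) ^ 2 * LL ^ 3 / L ^ 2) := by
    push_cast
    have h1 : ∀ d ∈ Icc 2 D, ((X / (d + 1) : ℕ) : ℝ) * ((SS X d).card : ℝ) ≤
        ((X : ℝ) * (K * X * Real.log D ^ 2 / L ^ 2)) * (1 / ((d : ℝ) + 1)) := by
      intro d hd
      rw [Finset.mem_Icc] at hd
      have e1 : ((X / (d + 1) : ℕ) : ℝ) ≤ (X : ℝ) / ((d : ℝ) + 1) := by
        have := Nat.cast_div_le (m := X) (n := d + 1) (α := ℝ)
        push_cast at this
        exact this
      have e2 := hs X D d hX1 hD3 hd.1 hd.2 hDX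
      calc _ ≤ ((X : ℝ) / ((d : ℝ) + 1)) * (K * X * Real.log D ^ 2 / L ^ 2) :=
            mul_le_mul e1 e2 (Nat.cast_nonneg _) (by positivity)
        _ = _ := by ring
    refine (Finset.sum_le_sum h1).trans ?_
    rw [← Finset.mul_sum]
    calc (X : ℝ) * (K * X * Real.log D ^ 2 / L ^ 2) * ∑ d ∈ Icc 2 D, 1 / ((d : ℝ) + 1)
        ≤ (X : ℝ) * (K * X * Real.log D ^ 2 / L ^ 2) * Real.log D :=
          mul_le_mul_of_nonneg_left (tel_b D (by omega)) (by positivity)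
      _ = K * X ^ 2 / L ^ 2 * Real.log D ^ 3 := by ring
      _ ≤ K * X ^ 2 / L ^ 2 * (2 * LL) ^ 3 :=
          mul_le_mul_of_nonneg_left (pow_le_pow_left₀ hlogD0 hlogD 3) (by positivity)
      _ = _ := by ring
  have h0 : (num Rs X : ℝ) ≤ (Nat.sqrt X : ℝ) * X + ((D : ℝ) * ((Nat.sqrt X : ℝ) * X) +
      (((∑ d ∈ Icc (D + 1) X, (X / (d + 1)) * ((X + 1) / (d + 1)) : ℕ) : ℝ) +
        ((∑ d ∈ Icc 2 D, (X / (d + 1)) * (SS X d).card : ℕ) : ℝ))) := by
    exact_mod_cast num_Rs_le X D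
  calc (num Rs X : ℝ) ≤ _ := h0
    _ ≤ (X : ℝ) ^ 2 * LL ^ 3 / L ^ 2 + ((X : ℝ) ^ 2 * LL ^ 3 / L ^ 2 +
        (2 * ((X : ℝ) ^ 2 * LL ^ 3 / L ^ 2) + 8 * K * ((X : ℝ) ^ 2 * LL ^ 3 / L ^ 2))) :=
        add_le_add p1 (add_le_add p2 (add_le_add p3 p4))
    _ = _ := by ring

/-- `num Opn` is the number of the main class plus the rest -/
theorem num_opn (X : ℕ) : num Opn X = num Mn X + num Rs X := by
  have hsplit : trip Opn X = trip Mn X ∪ trip Rs X := by
    ext ⟨n, q, r⟩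
    constructor
    · rintro ⟨h1, h2, h3, h4, h5⟩
      by_cases h6 : Mn n q r
      · exact Or.inl ⟨h1, h2, h3, h4, h6⟩
      · exact Or.inr ⟨h1, h2, h3, h4, h5, h6⟩
    · rintro (⟨h1, h2, h3, h4, h5⟩ | ⟨h1, h2, h3, h4, h5⟩)
      · refine ⟨h1, h2, h3, h4, ?_⟩
        simp only at h1 h2 h3 h4 h5 ⊢
        obtain ⟨h6, h7, h8⟩ := h5
        have h9 := opn_main (r := r) (p := n - r) h1 h7 (by omega)
        have h10 : r + (n - r) = n := by omega
        rw [h10] at h9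
        rw [h6]
        exact h9
      · exact ⟨h1, h2, h3, h4, h5.1⟩
  have hdis : Disjoint (trip Mn X) (trip Rs X) := by
    rw [Set.disjoint_left]
    rintro ⟨n, q, r⟩ ⟨_, _, _, _, h5⟩ ⟨_, _, _, _, h6⟩
    exact h6.2 h5
  unfold num
  rw [hsplit, Set.ncard_union_eq hdis (trip_finite Mn X) (trip_finite Rs X)]

theorem opn_asymp : Tendsto (fun X : ℕ => (num Opn X : ℝ) * Real.log X / (X : ℝ) ^ 2) atTop
    (𝓝 (1 / 4)) := by
  obtain ⟨C, hC, X₀, hb⟩ := rest_bound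
  have hlogs : Tendsto (fun X : ℕ => Real.log X) atTop atTop :=
    Real.tendsto_log_atTop.comp (tendsto_natCast_atTop_atTop (R := ℝ))
  have h1 : Tendsto (fun X : ℕ => (num Rs X : ℝ) * Real.log X / (X : ℝ) ^ 2) atTop (𝓝 0) := by
    have h2 : Tendsto (fun x : ℝ => C * (Real.log x ^ 3 / x)) atTop (𝓝 0) := by
      have h3 := (Real.isLittleO_pow_log_id_atTop (n := 3)).tendsto_div_nhds_zero
      have h4 := h3.const_mul C
      rw [mul_zero] at h4
      exact h4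
    have h3 := h2.comp hlogs
    refine squeeze_zero' (Eventually.of_forall fun X => by
      have : 0 ≤ Real.log X := Real.log_natCast_nonneg X
      positivity) ?_ h3
    filter_upwards [eventually_ge_atTop X₀, eventually_ge_atTop 3] with X hX hX3
    have hXR : (3 : ℝ) ≤ X := by exact_mod_cast hX3
    have hX0 : (0 : ℝ) < X := by linarith
    have hlog : 0 < Real.log X := Real.log_pos (by linarith)
    simp only [Function.comp_apply]
    rw [div_le_iff₀ (by positivity)]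
    calc (num Rs X : ℝ) * Real.log X ≤
        (C * (X : ℝ) ^ 2 * Real.log (Real.log X) ^ 3 / Real.log X ^ 2) * Real.log X :=
          mul_le_mul_of_nonneg_right (hb X hX) hlog.le
      _ = _ := by field_simp
  have h2 := Mn_asymp.add h1
  rw [add_zero] at h2
  refine h2.congr fun X => ?_
  rw [num_opn]
  push_cast
  ring

end Pool.Agent.U296.ST
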