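import Pool.Agent.Erdos456.Mertens
import Pool.Agent.Cov.SieveF

/-!
# Mertens products and the sieve bound
-/

set_option autoImplicit false
open Finset Filter Topology

namespace Pool.Agent.U296.ST

/-- the primes up to `N` -/
def PN (N : ℕ) : Finset ℕ := (Icc 1 N).filter Nat.Prime

theorem sum_inv_sq (N : ℕ) (s : Finset ℕ) (hs : s ⊆ Icc 2 N) :
    ∑ p ∈ s, 1 / (p : ℝ) ^ 2 ≤ 1 := by
  have h1 : ∀ N : ℕ, 1 ≤ N → ∑ p ∈ Icc 2 N, 1 / (p : ℝ) ^ 2 ≤ (1 : ℝ) - 1 / (N : ℝ) := by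
    intro N hN
    induction N, hN using Nat.le_induction with
    | base => simp
    | succ N hN ih =>
      rw [Finset.sum_Icc_succ_top (by omega)]
      have hN0 : (1 : ℝ) ≤ N := by exact_mod_cast hN
      have h2 : 1 / ((N + 1 : ℕ) : ℝ) ^ 2 ≤ 1 / (N : ℝ) - 1 / ((N + 1 : ℕ) : ℝ) := by
        push_cast
        rw [div_sub_div _ _ (by positivity) (by positivity), div_le_div_iff₀ (by positivity) (by positivity)]
        nlinarith
      linarith
  rcases Nat.eq_zero_or_pos N with rfl | hN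
  · have : s = ∅ := by
      rw [← Finset.subset_empty]
      simpa using hs
    rw [this]
    simp
  · refine (Finset.sum_le_sum_of_subset_of_nonneg hs fun _ _ _ => by positivity).trans ?_
    have := h1 N hN
    have h2 : (0 : ℝ) ≤ 1 / (N : ℝ) := by positivity
    linarith

theorem mem_PN {N p : ℕ} : p ∈ PN N ↔ p.Prime ∧ p ≤ N := by
  unfold PN
  rw [Finset.mem_filter, Finset.mem_Icc]
  constructor
  · rintro ⟨⟨_, h⟩, h'⟩; exact ⟨h', h⟩
  · rintro ⟨h', h⟩; exact ⟨⟨h'.one_lt.le, h⟩, h'⟩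

theorem fac_bounds {p : ℕ} (hp : p.Prime) : 0 < 1 - 1 / (p : ℝ) ∧ 1 - 1 / (p : ℝ) ≤ 1 := by
  have h2 : (2 : ℝ) ≤ p := by exact_mod_cast hp.two_le
  have h3 : 1 / (p : ℝ) ≤ 1 / 2 := one_div_le_one_div_of_le (by norm_num) h2
  have h4 : 0 ≤ 1 / (p : ℝ) := by positivity
  constructor <;> linarith

theorem mert_up : ∃ c : ℝ, 0 < c ∧ ∀ N : ℕ, 3 ≤ N → ∏ p ∈ PN N, (1 - 1 / (p : ℝ)) ≤ c / Real.log N := by
  obtain ⟨C, hC⟩ := Pool.Agent.Erdos456.Mert.mertens_inv
  refine ⟨Real.exp C, Real.exp_pos _, fun N hN => ?_⟩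
  have h1 := (abs_le.1 (hC N hN)).1
  have hlog : 0 < Real.log N := Real.log_pos (by exact_mod_cast (by omega : 1 < N))
  calc ∏ p ∈ PN N, (1 - 1 / (p : ℝ)) ≤ ∏ p ∈ PN N, Real.exp (-(1 / (p : ℝ))) := by
        refine Finset.prod_le_prod (fun p hp => (fac_bounds (mem_PN.1 hp).1).1.le) fun p _ => ?_
        have := Real.add_one_le_exp (-(1 / (p : ℝ)))
        linarith
    _ = Real.exp (-∑ p ∈ PN N, 1 / (p : ℝ)) := by
        rw [← Real.exp_sum, Finset.sum_neg_distrib]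
    _ ≤ Real.exp (C - Real.log (Real.log N)) := by
        apply Real.exp_le_exp.2
        change -C ≤ ∑ p ∈ PN N, 1 / (p : ℝ) - Real.log (Real.log N) at h1
        linarith
    _ = _ := by rw [Real.exp_sub, Real.exp_log hlog]

theorem mert_low : ∃ c : ℝ, 0 < c ∧ ∀ N : ℕ, 3 ≤ N → c / Real.log N ≤ ∏ p ∈ PN N, (1 - 1 / (p : ℝ)) := by
  obtain ⟨C, hC⟩ := Pool.Agent.Erdos456.Mert.mertens_inv
  refine ⟨Real.exp (-C - 2), Real.exp_pos _, fun N hN => ?_⟩
  have h1 := (abs_le.1 (hC N hN)).2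
  have hlog : 0 < Real.log N := Real.log_pos (by exact_mod_cast (by omega : 1 < N))
  have hsq : ∑ p ∈ PN N, 1 / (p : ℝ) ^ 2 ≤ 1 := by
    apply sum_inv_sq N
    intro p hp
    rw [mem_PN] at hp
    rw [Finset.mem_Icc]
    exact ⟨hp.1.two_le, hp.2⟩
  calc Real.exp (-C - 2) / Real.log N = Real.exp (-C - 2 - Real.log (Real.log N)) := by
        rw [Real.exp_sub _ (Real.log _), Real.exp_log hlog]
    _ ≤ Real.exp (∑ p ∈ PN N, (-(1 / (p : ℝ)) - 2 * (1 / (p : ℝ) ^ 2))) := by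
        apply Real.exp_le_exp.2
        rw [Finset.sum_sub_distrib, Finset.sum_neg_distrib, ← Finset.mul_sum]
        change ∑ p ∈ PN N, 1 / (p : ℝ) - Real.log (Real.log N) ≤ C at h1
        linarith
    _ = ∏ p ∈ PN N, Real.exp (-(1 / (p : ℝ)) - 2 * (1 / (p : ℝ) ^ 2)) := Real.exp_sum _ _
    _ ≤ _ := by
        refine Finset.prod_le_prod (fun _ _ => (Real.exp_pos _).le) fun p hp => ?_
        have hpp := (mem_PN.1 hp).1
        have hf := (fac_bounds hpp).1
        rw [← Real.le_log_iff_exp_le hf]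
        have h2 := Real.one_sub_inv_le_log_of_pos hf
        refine le_trans ?_ h2
        have h3 : (2 : ℝ) ≤ p := by exact_mod_cast hpp.two_le
        have h4 : (1 - 1 / (p : ℝ))⁻¹ = 1 + 1 / ((p : ℝ) - 1) := by
          have hne : (p : ℝ) - 1 ≠ 0 := by linarith
          have hp0 : (p : ℝ) ≠ 0 := by linarith
          have h6 : 1 - 1 / (p : ℝ) = ((p : ℝ) - 1) / p := by field_simp
          rw [h6, inv_div, div_eq_iff hne, add_mul, one_mul, div_mul_cancel₀ _ hne]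
          ring
        rw [h4]
        have h5 : 1 / ((p : ℝ) - 1) ≤ 1 / (p : ℝ) + 2 * (1 / (p : ℝ) ^ 2) := by
          have : 1 / (p : ℝ) + 2 * (1 / (p : ℝ) ^ 2) = ((p : ℝ) + 2) / (p : ℝ) ^ 2 := by
            field_simp
          rw [this, div_le_div_iff₀ (by linarith) (by positivity)]
          nlinarith
        linarith

end Pool.Agent.U296.ST
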