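import Pool.Agent.Cov.PNT
import Pool.Agent.U296.ST.Basic

/-!
# The number of the triples `(r + p, r + 1, r)`, `p` prime
-/

set_option autoImplicit false
open Finset Filter Topology

namespace Pool.Agent.U296.ST

theorem pi_nat : Tendsto (fun n : ℕ => (Nat.primeCounting n : ℝ) * Real.log n / n) atTop (𝓝 1) := by
  have h := Pool.Agent.Cov.PNT.pi_tendsto.comp (tendsto_natCast_atTop_atTop (R := ℝ))
  refine h.congr fun n => ?_
  simp only [Function.comp_apply, Nat.floor_natCast]

/-- the prime number theorem, uniformly up to `X` -/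
theorem uniform_pi {ε : ℝ} (hε : 0 < ε) (hε1 : ε ≤ 1) : ∃ X₀ : ℕ, ∀ X : ℕ, X₀ ≤ X → ∀ y : ℕ, y ≤ X →
    |(Nat.primeCounting y : ℝ) - y / Real.log X| ≤ ε * X / Real.log X := by
  obtain ⟨y₀, hy₀⟩ := Metric.tendsto_atTop.1 pi_nat (ε / 4) (by positivity)
  set δ := ε / 8 with hδ
  have hδ0 : 0 < δ := by positivity
  have hδ1 : δ < 1 := by rw [hδ]; linarith
  set K := max (2 * Real.log (2 / δ)) (8 * Real.log (1 / δ) / ε) with hK
  obtain ⟨X₁, hX₁⟩ := eventually_atTop.1
    ((tendsto_natCast_atTop_atTop (R := ℝ)).eventually_ge_atTop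
      (max (max (Real.exp K) (((y₀ : ℝ) + 3) / δ)) (max (2 / δ) 3)))
  refine ⟨X₁, fun X hX y hy => ?_⟩
  have hXb := hX₁ X hX
  have hXK : Real.exp K ≤ X := (le_max_left _ _).trans ((le_max_left _ _).trans hXb)
  have hXy : ((y₀ : ℝ) + 3) / δ ≤ X := (le_max_right _ _).trans ((le_max_left _ _).trans hXb)
  have hX2 : 2 / δ ≤ X := (le_max_left _ _).trans ((le_max_right _ _).trans hXb)
  have hX3 : (3 : ℝ) ≤ X := (le_max_right _ _).trans ((le_max_right _ _).trans hXb)
  have hX0 : (0 : ℝ) < X := by linarith
  rw [div_le_iff₀ hδ0] at hXy hX2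
  have hlogK : K ≤ Real.log X := by
    have := Real.log_le_log (Real.exp_pos _) hXK
    rwa [Real.log_exp] at this
  have hlog2 : 2 * Real.log (2 / δ) ≤ Real.log X := (le_max_left _ _).trans hlogK
  have hlog8 : 8 * Real.log (1 / δ) / ε ≤ Real.log X := (le_max_right _ _).trans hlogK
  have hlog0 : 0 < Real.log X := Real.log_pos (by linarith)
  set z := ⌊δ * X⌋₊ with hz
  have hz1 : (z : ℝ) ≤ δ * X := Nat.floor_le (by positivity)
  have hz2 : δ * X < z + 1 := Nat.lt_floor_add_one _
  have hzy : y₀ ≤ z := by
    have : (y₀ : ℝ) < z := by nlinarith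
    exact_mod_cast this.le
  have hz3 : (2 : ℝ) ≤ z := by
    have : (y₀ : ℝ) + 2 < z := by nlinarith
    have h0 : (0 : ℝ) ≤ y₀ := Nat.cast_nonneg _
    linarith
  have hzh : δ / 2 * X ≤ z := by nlinarith
  have hlogz : Real.log X / 2 ≤ Real.log z := by
    have h1 : Real.log (δ / 2 * X) ≤ Real.log z := Real.log_le_log (by positivity) hzh
    rw [Real.log_mul (by positivity) (by positivity)] at h1
    have h2 : Real.log (δ / 2) = -Real.log (2 / δ) := by
      rw [← Real.log_inv, inv_div]
    rw [h2] at h1
    linarith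
  -- the estimate for `y ≥ z`
  have key : ∀ y : ℕ, z ≤ y → |(Nat.primeCounting y : ℝ) - y / Real.log y| ≤ ε / 2 * y / Real.log X := by
    intro y hy
    have hyR : (z : ℝ) ≤ y := by exact_mod_cast hy
    have hy0 : (0 : ℝ) < y := by linarith
    have hly : Real.log X / 2 ≤ Real.log y := hlogz.trans (Real.log_le_log (by linarith) hyR)
    have hly0 : 0 < Real.log y := by linarith
    have h1 := hy₀ y (hzy.trans hy)
    rw [Real.dist_eq] at h1
    have h2 : (Nat.primeCounting y : ℝ) - y / Real.log y =
        ((Nat.primeCounting y : ℝ) * Real.log y / y - 1) * (y / Real.log y) := by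
      field_simp
    rw [h2, abs_mul, abs_of_pos (div_pos hy0 hly0)]
    calc _ ≤ ε / 4 * (y / Real.log y) := mul_le_mul_of_nonneg_right h1.le (by positivity)
      _ ≤ ε / 4 * (y / (Real.log X / 2)) := by
          apply mul_le_mul_of_nonneg_left _ (by positivity)
          exact div_le_div_of_nonneg_left hy0.le (by linarith) hly
      _ = _ := by field_simp; ring
  have hyR : (y : ℝ) ≤ X := by exact_mod_cast hy
  rcases le_or_gt y z with hyz | hyz
  · have hyzR : (y : ℝ) ≤ z := by exact_mod_cast hyz
    have h1 : (Nat.primeCounting y : ℝ) ≤ Nat.primeCounting z := by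
      exact_mod_cast Nat.monotone_primeCounting hyz
    have h2 := key z le_rfl
    rw [abs_le] at h2
    have h3 : (z : ℝ) / Real.log z ≤ z / (Real.log X / 2) :=
      div_le_div_of_nonneg_left (by linarith) (by linarith) hlogz
    have h4 : (Nat.primeCounting y : ℝ) ≤ ε * X / Real.log X := by
      have h5 : (z : ℝ) / (Real.log X / 2) = 2 * z / Real.log X := by field_simp
      have h6 : ε / 2 * z / Real.log X + 2 * z / Real.log X ≤ ε * X / Real.log X := by
        rw [← add_div]
        apply div_le_div_of_nonneg_right _ hlog0.le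
        have : ε / 2 * z ≤ 1 / 2 * z := mul_le_mul_of_nonneg_right (by linarith) (by linarith)
        have h7 : δ * X = ε * X / 8 := by rw [hδ]; ring
        have h8 := mul_pos hε hX0
        linarith
      linarith [h2.2]
    have h5 : (y : ℝ) / Real.log X ≤ ε * X / Real.log X := by
      apply div_le_div_of_nonneg_right _ hlog0.le
      have h7 : δ * X = ε * X / 8 := by rw [hδ]; ring
      have h8 := mul_pos hε hX0
      linarith
    have h6 : (0 : ℝ) ≤ (y : ℝ) / Real.log X := by positivity
    have h7 : (0 : ℝ) ≤ (Nat.primeCounting y : ℝ) := Nat.cast_nonneg _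
    rw [abs_le]
    constructor <;> linarith
  · have h1 := key y hyz.le
    have hyzR : (z : ℝ) ≤ y := by exact_mod_cast hyz.le
    have hy0 : (0 : ℝ) < y := by linarith
    have hly : Real.log X / 2 ≤ Real.log y := hlogz.trans (Real.log_le_log (by linarith) hyzR)
    have hly0 : 0 < Real.log y := by linarith
    have hyδ : δ * X ≤ y := by
      have : ((z : ℝ) + 1) ≤ y := by exact_mod_cast hyz
      linarith
    have hlogyX : Real.log X - Real.log y ≤ Real.log (1 / δ) := by
      have h3 : Real.log (δ * X) ≤ Real.log y := Real.log_le_log (by positivity) hyδ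
      rw [Real.log_mul (by positivity) (by positivity)] at h3
      have h2 : Real.log (1 / δ) = -Real.log δ := by
        rw [one_div, Real.log_inv]
      rw [h2]
      linarith
    have hlyX : Real.log y ≤ Real.log X := Real.log_le_log hy0 hyR
    have h3 : |(y : ℝ) / Real.log y - y / Real.log X| ≤ ε / 4 * X / Real.log X := by
      have h4 : (y : ℝ) / Real.log y - y / Real.log X =
          y * (Real.log X - Real.log y) / (Real.log y * Real.log X) := by
        field_simp
      rw [h4, abs_of_nonneg (by
        apply div_nonneg (mul_nonneg hy0.le (by linarith)) (by positivity))]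
      rw [div_le_div_iff₀ (by positivity) hlog0]
      have h5 : Real.log (1 / δ) ≤ ε / 4 * Real.log y := by
        rw [div_le_iff₀ hε] at hlog8
        have := mul_le_mul_of_nonneg_left hly hε.le
        linarith
      calc y * (Real.log X - Real.log y) * Real.log X
          ≤ X * (ε / 4 * Real.log y) * Real.log X := by
            apply mul_le_mul_of_nonneg_right _ hlog0.le
            exact mul_le_mul hyR (hlogyX.trans h5) (by linarith) hX0.le
        _ = _ := by ring
    have h6 : ε / 2 * y / Real.log X ≤ ε / 2 * X / Real.log X := by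
      apply div_le_div_of_nonneg_right _ hlog0.le
      exact mul_le_mul_of_nonneg_left hyR (by positivity)
    calc |(Nat.primeCounting y : ℝ) - y / Real.log X|
        = |((Nat.primeCounting y : ℝ) - y / Real.log y) + (y / Real.log y - y / Real.log X)| := by
          congr 1; ring
      _ ≤ ε / 2 * X / Real.log X + ε / 4 * X / Real.log X :=
          (abs_add_le _ _).trans (add_le_add (h1.trans h6) h3)
      _ ≤ _ := by
          rw [← add_div]
          apply div_le_div_of_nonneg_right _ hlog0.le
          have := mul_pos hε hX0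
          linarith

end Pool.Agent.U296.ST
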