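import Pool.Agent.U296.ST.Mert

/-!
# The sieve bound
-/

set_option autoImplicit false
open Finset Filter Topology

namespace Pool.Agent.U296.ST

theorem prod_sub_le {s t : Finset ℕ} (h : s ⊆ t) (ht : ∀ p ∈ t, p.Prime) :
    ∏ p ∈ t, (1 - 1 / (p : ℝ)) ≤ ∏ p ∈ s, (1 - 1 / (p : ℝ)) := by
  rw [← Finset.prod_sdiff h]
  have h1 : ∏ p ∈ t \ s, (1 - 1 / (p : ℝ)) ≤ 1 :=
    Finset.prod_le_one (fun p hp => (fac_bounds (ht p (Finset.mem_sdiff.1 hp).1)).1.le)
      (fun p hp => (fac_bounds (ht p (Finset.mem_sdiff.1 hp).1)).2)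
  have h2 : 0 ≤ ∏ p ∈ s, (1 - 1 / (p : ℝ)) :=
    Finset.prod_nonneg fun p hp => (fac_bounds (ht p (h hp))).1.le
  calc _ ≤ 1 * ∏ p ∈ s, (1 - 1 / (p : ℝ)) := mul_le_mul_of_nonneg_right h1 h2
    _ = _ := one_mul _

theorem tot_bound {c : ℝ} (hc0 : 0 < c)
    (hc : ∀ N : ℕ, 3 ≤ N → c / Real.log N ≤ ∏ p ∈ PN N, (1 - 1 / (p : ℝ)))
    {d D : ℕ} (hD : 3 ≤ D) (hd : 2 ≤ d) (hdD : d ≤ D) :
    ((2 * d : ℕ) : ℝ) / (Nat.totient (2 * d) : ℝ) ≤ Real.log D / c := by
  have h1 : (Nat.totient (2 * d) : ℝ) = ((2 * d : ℕ) : ℝ) *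
      ∏ p ∈ (2 * d).primeFactors, (1 - 1 / (p : ℝ)) := by
    have h2 := congrArg (fun q : ℚ => (q : ℝ)) (Nat.totient_eq_mul_prod_factors (2 * d))
    simp only [Rat.cast_natCast, Rat.cast_mul, Rat.cast_prod, Rat.cast_sub, Rat.cast_one,
      Rat.cast_inv] at h2
    simp only [one_div]
    exact h2
  have hlog : 0 < Real.log D := Real.log_pos (by exact_mod_cast (by omega : 1 < D))
  have h3 : c / Real.log D ≤ ∏ p ∈ (2 * d).primeFactors, (1 - 1 / (p : ℝ)) := by
    refine (hc D hD).trans (prod_sub_le ?_ fun p hp => (mem_PN.1 hp).1)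
    intro p hp
    have hp1 := Nat.prime_of_mem_primeFactors hp
    have hp2 := Nat.dvd_of_mem_primeFactors hp
    rw [mem_PN]
    refine ⟨hp1, ?_⟩
    rcases (Nat.Prime.dvd_mul hp1).1 hp2 with h4 | h4
    · have := Nat.le_of_dvd (by norm_num) h4
      omega
    · have := Nat.le_of_dvd (by omega) h4
      omega
  have hP : 0 < ∏ p ∈ (2 * d).primeFactors, (1 - 1 / (p : ℝ)) :=
    lt_of_lt_of_le (by positivity) h3
  have hM : (0 : ℝ) < ((2 * d : ℕ) : ℝ) := by exact_mod_cast (by omega : 0 < 2 * d)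
  rw [h1, div_le_div_iff₀ (by positivity) hc0]
  rw [div_le_iff₀ hlog] at h3
  calc ((2 * d : ℕ) : ℝ) * c ≤ ((2 * d : ℕ) : ℝ) *
        ((∏ p ∈ (2 * d).primeFactors, (1 - 1 / (p : ℝ))) * Real.log D) :=
        mul_le_mul_of_nonneg_left h3 hM.le
    _ = _ := by ring

/-- the sieve -/
theorem sieve_d : ∃ K : ℝ, 0 < K ∧ ∃ X₀ : ℕ, ∀ X D d : ℕ, X₀ ≤ X → 3 ≤ D → 2 ≤ d → d ≤ D →
    (D : ℝ) ^ 1024 ≤ X →
    (((Icc 1 X).filter (fun m => ∀ p ∈ range (X + 1), p.Prime → p ^ 8 ≤ X → d % p ≤ m % p)).card : ℝ) ≤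
      K * X * (Real.log D) ^ 2 / (Real.log X) ^ 2 := by
  classical
  obtain ⟨C, hC, Y₀, hsv⟩ := Pool.Agent.Cov.sieve_general
  obtain ⟨c1, hc1, h1⟩ := mert_up
  obtain ⟨c2, hc2, h2⟩ := mert_low
  refine ⟨C * (1024 * c1 / c2 ^ 2), by positivity, max Y₀ (2 ^ 1024), ?_⟩
  intro X D d hX hD hd hdD hDX
  have hXY : Y₀ ≤ X := (le_max_left _ _).trans hX
  have hX2 : 2 ^ 1024 ≤ X := (le_max_right _ _).trans hX
  have hX2R : (2 : ℝ) ^ 1024 ≤ X := by exact_mod_cast hX2
  have hX0 : (0 : ℝ) < X := lt_of_lt_of_le (by positivity) hX2R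
  have hX1 : (1 : ℝ) < X := lt_of_lt_of_le (one_lt_pow₀ (by norm_num) (by norm_num)) hX2R
  have hlogX : 0 < Real.log X := Real.log_pos hX1
  have hD1 : (1 : ℝ) < D := by exact_mod_cast (by omega : 1 < D)
  have hlogD : 0 < Real.log D := Real.log_pos hD1
  set x := (X : ℝ) ^ ((1 : ℝ) / 512) with hx
  have hx512 : x ^ 512 = X := by
    rw [hx, ← Real.rpow_natCast, ← Real.rpow_mul hX0.le]
    norm_num
  have hx0 : 0 < x := Real.rpow_pos_of_pos hX0 _
  set z := ⌊x⌋₊ with hz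
  have hz1 : (z : ℝ) ≤ x := Nat.floor_le hx0.le
  have hz2 : x < z + 1 := Nat.lt_floor_add_one _
  have hz512 : z ^ 512 ≤ X := by
    have : (z : ℝ) ^ 512 ≤ X := by
      rw [← hx512]
      exact pow_le_pow_left₀ (Nat.cast_nonneg _) hz1 _
    exact_mod_cast this
  have hDx : (D : ℝ) ≤ x := by
    by_contra hcon
    have h3 := pow_lt_pow_left₀ (not_le.1 hcon) hx0.le (n := 512) (by norm_num)
    rw [hx512] at h3
    have h4 : (D : ℝ) ^ 512 ≤ (D : ℝ) ^ 1024 := pow_le_pow_right₀ hD1.le (by norm_num)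
    linarith
  have hDz : D ≤ z := Nat.le_floor hDx
  -- `log z ≥ log X / 1024`
  have hlogz : Real.log X / 1024 ≤ Real.log z := by
    have h3 : (X : ℝ) ^ ((1 : ℝ) / 1024) ≤ z := by
      set y := (X : ℝ) ^ ((1 : ℝ) / 1024) with hy
      have hy0 : 0 < y := Real.rpow_pos_of_pos hX0 _
      have hyx : y * y = x := by
        rw [hy, hx, ← Real.rpow_add hX0]
        norm_num
      have hy2 : 2 ≤ y := by
        rw [hy]
        have h4 := Real.rpow_le_rpow (by positivity) hX2R (show (0 : ℝ) ≤ 1 / 1024 by norm_num)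
        refine le_trans (le_of_eq ?_) h4
        rw [← Real.rpow_natCast, ← Real.rpow_mul (by norm_num)]
        norm_num
      nlinarith
    have h4 := Real.log_le_log (Real.rpow_pos_of_pos hX0 _) h3
    rw [Real.log_rpow hX0] at h4
    linarith
  have hlogz0 : 0 < Real.log z := lt_of_lt_of_le (by positivity) hlogz
  -- the sieve
  set E : ℕ → Finset ℕ := fun p => if p ≤ d then {0} else {0, 1} with hE
  have hsys : Pool.Agent.Cov.Sys (2 * d) E := by
    refine ⟨dvd_mul_right _ _, ?_, ?_, ?_⟩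
    · intro p hp _ a ha
      rw [Finset.mem_range]
      have := hp.two_le
      rw [hE] at ha
      simp only at ha
      split_ifs at ha
      · rw [Finset.mem_singleton] at ha
        omega
      · rw [Finset.mem_insert, Finset.mem_singleton] at ha
        omega
    · intro p _ _
      rw [hE]
      simp only
      split_ifs
      · simp
      · simp
    · intro p _ _
      rw [hE]
      simp only
      split_ifs
      · simp
      · exact Finset.card_le_two
  set Q := (Ioc D z).filter Nat.Prime with hQ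
  have hres := hsv X (2 * d) E Q hXY (by omega) hsys (by
    intro p hp
    rw [hQ, Finset.mem_filter, Finset.mem_Ioc] at hp
    obtain ⟨⟨hp1, hp2⟩, hp3⟩ := hp
    refine ⟨hp3, ?_, ?_, ?_⟩
    · intro h3
      rcases (Nat.Prime.dvd_mul hp3).1 h3 with h4 | h4
      · have := Nat.le_of_dvd (by norm_num) h4
        omega
      · have := Nat.le_of_dvd (by omega) h4
        omega
    · rw [hE]
      simp only
      rw [if_neg (by omega)]
      simp
    · exact (Nat.pow_le_pow_left hp2 512).trans hz512)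
    ((Icc 1 X).filter (fun m => ∀ p ∈ range (X + 1), p.Prime → p ^ 8 ≤ X → d % p ≤ m % p))
    (Finset.filter_subset _ _) (by
    intro l hl p hp hp8 hpM hlE
    rw [Finset.mem_filter] at hl
    have hpX : p ≤ X := by
      refine le_trans ?_ hp8
      exact Nat.le_self_pow (by norm_num) p
    have h3 := hl.2 p (Finset.mem_range.2 (by omega)) hp hp8
    rw [hE] at hlE
    simp only at hlE
    split_ifs at hlE with h4
    · rw [Finset.mem_singleton] at hlE
      have h5 : d % p = 0 := by omega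
      exact hpM (dvd_mul_of_dvd_right (Nat.dvd_of_mod_eq_zero h5) 2)
    · rw [Nat.mod_eq_of_lt (by omega)] at h3
      rw [Finset.mem_insert, Finset.mem_singleton] at hlE
      omega)
  -- the products
  have hPz := h1 z (by omega)
  have hPD := h2 D hD
  have hPDpos : 0 < ∏ p ∈ PN D, (1 - 1 / (p : ℝ)) := lt_of_lt_of_le (by positivity) hPD
  have hsplit : ∏ p ∈ PN z, (1 - 1 / (p : ℝ)) =
      (∏ p ∈ PN D, (1 - 1 / (p : ℝ))) * ∏ p ∈ Q, (1 - 1 / (p : ℝ)) := by
    rw [← Finset.prod_union]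
    · congr 1
      ext p
      rw [Finset.mem_union, mem_PN, mem_PN, hQ, Finset.mem_filter, Finset.mem_Ioc]
      constructor
      · rintro ⟨h3, h4⟩
        by_cases h5 : p ≤ D
        · exact Or.inl ⟨h3, h5⟩
        · exact Or.inr ⟨⟨by omega, h4⟩, h3⟩
      · rintro (⟨h3, h4⟩ | ⟨⟨h3, h4⟩, h5⟩)
        · exact ⟨h3, by omega⟩
        · exact ⟨h5, h4⟩
    · rw [Finset.disjoint_left]
      intro p hp hp'
      rw [mem_PN] at hp
      rw [hQ, Finset.mem_filter, Finset.mem_Ioc] at hp'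
      omega
  have hQb : ∏ p ∈ Q, (1 - 1 / (p : ℝ)) ≤ (1024 * c1 / c2) * (Real.log D / Real.log X) := by
    have h3 : ∏ p ∈ Q, (1 - 1 / (p : ℝ)) = (∏ p ∈ PN z, (1 - 1 / (p : ℝ))) /
        ∏ p ∈ PN D, (1 - 1 / (p : ℝ)) := by
      rw [hsplit]
      field_simp
    rw [h3, div_le_iff₀ hPDpos]
    calc ∏ p ∈ PN z, (1 - 1 / (p : ℝ)) ≤ c1 / Real.log z := hPz
      _ ≤ c1 / (Real.log X / 1024) := div_le_div_of_nonneg_left hc1.le (by positivity) hlogz
      _ = (1024 * c1 / c2) * (Real.log D / Real.log X) * (c2 / Real.log D) := by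
          field_simp
      _ ≤ _ := mul_le_mul_of_nonneg_left hPD (by positivity)
  have htb := tot_bound hc2 h2 hD hd hdD
  have hQ0 : 0 ≤ ∏ p ∈ Q, (1 - 1 / (p : ℝ)) :=
    Finset.prod_nonneg fun p hp => (fac_bounds (Finset.mem_filter.1 hp).2).1.le
  refine hres.trans ?_
  calc C * (((2 * d : ℕ) : ℝ) / ((2 * d).totient : ℝ)) * ((X : ℝ) / Real.log X) *
        ∏ p ∈ Q, (1 - 1 / (p : ℝ))
      ≤ C * (Real.log D / c2) * ((X : ℝ) / Real.log X) *
        ((1024 * c1 / c2) * (Real.log D / Real.log X)) := by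
        apply mul_le_mul _ hQb hQ0 (by positivity)
        apply mul_le_mul_of_nonneg_right _ (by positivity)
        exact mul_le_mul_of_nonneg_left htb hC.le
    _ = _ := by field_simp

end Pool.Agent.U296.ST
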