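import Pool.Agent.U296.ST.Cls
import Pool.Agent.U296.ST.Siev

/-!
# The triples outside the main class
-/

set_option autoImplicit false
open Finset Filter Topology

namespace Pool.Agent.U296.ST

/-- nontrivial triples with (D) and Tits' inequality which are not in the main class -/
def Rs (n q r : ℕ) : Prop := Opn n q r ∧ ¬ Mn n q r

theorem num_le_sigma (P : ℕ → ℕ → ℕ → Prop) (X : ℕ) (A : Finset ℕ) (R M : ℕ → Finset ℕ)
    (h : ∀ n q r, 1 ≤ r → r ≤ q → q ≤ n → n ≤ X → P n q r →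
      q - r ∈ A ∧ r ∈ R (q - r) ∧ n - r ∈ M (q - r)) :
    num P X ≤ ∑ d ∈ A, (R d).card * (M d).card := by
  classical
  have h1 : trip P X ⊆ ((A.sigma fun d => R d ×ˢ M d).image
      (fun x : (Σ _ : ℕ, ℕ × ℕ) => (x.2.1 + x.2.2, x.2.1 + x.1, x.2.1)) : Finset (ℕ × ℕ × ℕ)) := by
    rintro ⟨n, q, r⟩ ⟨h1, h2, h3, h4, h5⟩
    simp only at h1 h2 h3 h4 h5
    obtain ⟨h6, h7, h8⟩ := h n q r h1 h2 h3 h4 h5
    rw [Finset.mem_coe, Finset.mem_image]
    refine ⟨⟨q - r, (r, n - r)⟩, ?_, ?_⟩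
    · rw [Finset.mem_sigma]
      exact ⟨h6, Finset.mem_product.2 ⟨h7, h8⟩⟩
    · simp only [Prod.mk.injEq, and_true]
      omega
  unfold num
  refine (Set.ncard_le_ncard h1 (Finset.finite_toSet _)).trans ?_
  rw [Set.ncard_coe_finset]
  refine Finset.card_image_le.trans ?_
  rw [Finset.card_sigma]
  refine le_of_eq (Finset.sum_congr rfl fun d _ => ?_)
  rw [Finset.card_product]

/-- the sifted set -/
def SS (X d : ℕ) : Finset ℕ :=
  (Icc 1 X).filter (fun m => ∀ p ∈ range (X + 1), p.Prime → p ^ 8 ≤ X → d % p ≤ m % p)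

theorem num_e (X : ℕ) : num (fun n q r => Rs n q r ∧ q - r = 1) X ≤ Nat.sqrt X * X := by
  refine (num_le_sigma _ X {1} (fun _ => Icc 1 (Nat.sqrt X)) (fun _ => Icc 1 X) ?_).trans ?_
  · rintro n q r h1 h2 h3 h4 ⟨⟨h5, h6⟩, h7⟩
    have hq : q = r + 1 := by omega
    subst hq
    have hqn := h5.2.2.1
    have hprime : ¬ (n - r).Prime := by
      intro hp
      have := opn_one h5 hp dvd_rfl
      exact h6 ⟨rfl, hp, by omega⟩
    have h8 : (n - r).minFac ^ 2 ≤ n - r := Nat.minFac_sq_le_self (by omega) hprime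
    have h9 := opn_one h5 (Nat.minFac_prime (by omega : n - r ≠ 1)) (Nat.minFac_dvd _)
    refine ⟨by rw [Finset.mem_singleton]; omega, ?_, ?_⟩
    · rw [Finset.mem_Icc, Nat.le_sqrt]
      refine ⟨h1, ?_⟩
      have : r * r ≤ (n - r).minFac ^ 2 := by
        rw [sq]
        exact Nat.mul_le_mul (by omega) (by omega)
      omega
    · rw [Finset.mem_Icc]
      omega
  · rw [Finset.sum_singleton, Nat.card_Icc, Nat.card_Icc]
    simp

theorem num_c (X D : ℕ) : num (fun n q r => Opn n q r ∧ q - r ≤ D ∧ r ^ 8 < X) X ≤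
    D * (Nat.sqrt X * X) := by
  refine (num_le_sigma _ X (Icc 1 D) (fun _ => Icc 1 (Nat.sqrt X)) (fun _ => Icc 1 X) ?_).trans ?_
  · rintro n q r h1 h2 h3 h4 ⟨h5, h6, h7⟩
    have hqn := h5.2.2.1
    have hrq := h5.2.1
    refine ⟨by rw [Finset.mem_Icc]; omega, ?_, ?_⟩
    · rw [Finset.mem_Icc, Nat.le_sqrt]
      refine ⟨h1, ?_⟩
      have : r ^ 2 ≤ r ^ 8 := Nat.pow_le_pow_right h1 (by norm_num)
      rw [← sq]
      omega
    · rw [Finset.mem_Icc]
      omega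
  · rw [Finset.sum_const, Nat.card_Icc, Nat.card_Icc, Nat.card_Icc]
    simp

theorem le_div_of_opn {n q r X : ℕ} (h : Opn n q r) (hX : n ≤ X) : r ≤ X / (q - r + 1) := by
  rw [Nat.le_div_iff_mul_le (by omega)]
  have := h.2.2.2.2
  have h2 : r * (q - r + 1) ≤ (r + 1) * (q - r + 1) := Nat.mul_le_mul_right _ (by omega)
  omega

theorem num_a (X D : ℕ) : num (fun n q r => Opn n q r ∧ D < q - r) X ≤
    ∑ d ∈ Icc (D + 1) X, (X / (d + 1)) * ((X + 1) / (d + 1)) := by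
  refine (num_le_sigma _ X (Icc (D + 1) X) (fun d => Icc 1 (X / (d + 1)))
    (fun d => (range (X + 1)).filter (fun e => d + 1 ∣ e + 1)) ?_).trans ?_
  · rintro n q r h1 h2 h3 h4 ⟨h5, h6⟩
    have hqn := h5.2.2.1
    refine ⟨by rw [Finset.mem_Icc]; omega, ?_, ?_⟩
    · rw [Finset.mem_Icc]
      exact ⟨h1, le_div_of_opn h5 h4⟩
    · rw [Finset.mem_filter, Finset.mem_range]
      exact ⟨by omega, opn_dvd h5⟩
  · refine Finset.sum_le_sum fun d _ => ?_
    rw [Nat.card_Icc, Nat.add_sub_cancel, Nat.card_multiples]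

theorem num_b (X D : ℕ) :
    num (fun n q r => Opn n q r ∧ 2 ≤ q - r ∧ q - r ≤ D ∧ X ≤ r ^ 8) X ≤
    ∑ d ∈ Icc 2 D, (X / (d + 1)) * (SS X d).card := by
  refine (num_le_sigma _ X (Icc 2 D) (fun d => Icc 1 (X / (d + 1))) (fun d => SS X d) ?_).trans ?_
  · rintro n q r h1 h2 h3 h4 ⟨h5, h6, h7, h8⟩
    have hqn := h5.2.2.1
    refine ⟨by rw [Finset.mem_Icc]; omega, ?_, ?_⟩
    · rw [Finset.mem_Icc]
      exact ⟨h1, le_div_of_opn h5 h4⟩
    · unfold SS
      rw [Finset.mem_filter, Finset.mem_Icc]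
      refine ⟨by omega, fun p _ hp hp8 => opn_prime h5 hp ?_⟩
      by_contra hcon
      have : r ^ 8 < p ^ 8 := Nat.pow_lt_pow_left (by omega) (by norm_num)
      omega
  · refine le_of_eq (Finset.sum_congr rfl fun d _ => ?_)
    rw [Nat.card_Icc, Nat.add_sub_cancel]

theorem num_Rs_le (X D : ℕ) : num Rs X ≤ Nat.sqrt X * X + (D * (Nat.sqrt X * X) +
    (∑ d ∈ Icc (D + 1) X, (X / (d + 1)) * ((X + 1) / (d + 1)) +
      ∑ d ∈ Icc 2 D, (X / (d + 1)) * (SS X d).card)) := by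
  refine le_trans (num_mono (P' := fun n q r => (Rs n q r ∧ q - r = 1) ∨
    ((Opn n q r ∧ q - r ≤ D ∧ r ^ 8 < X) ∨ ((Opn n q r ∧ D < q - r) ∨
      (Opn n q r ∧ 2 ≤ q - r ∧ q - r ≤ D ∧ X ≤ r ^ 8)))) ?_) ?_
  · intro n q r h1 h2 h3 h
    have hrq := h.1.2.1
    rcases Nat.lt_or_ge (q - r) 2 with h4 | h4
    · exact Or.inl ⟨h, by omega⟩
    · rcases Nat.lt_or_ge D (q - r) with h5 | h5
      · exact Or.inr (Or.inr (Or.inl ⟨h.1, h5⟩))
      · rcases Nat.lt_or_ge (r ^ 8) X with h6 | h6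
        · exact Or.inr (Or.inl ⟨h.1, h5, h6⟩)
        · exact Or.inr (Or.inr (Or.inr ⟨h.1, h4, h5, h6⟩))
  · refine (num_or _ _ X).trans (Nat.add_le_add (num_e X) ?_)
    refine (num_or _ _ X).trans (Nat.add_le_add (num_c X D) ?_)
    exact (num_or _ _ X).trans (Nat.add_le_add (num_a X D) (num_b X D))

theorem tel_a (D N : ℕ) (h : D ≤ N) :
    ∑ d ∈ Icc (D + 1) N, 1 / ((d : ℝ) + 1) ^ 2 ≤ 1 / ((D : ℝ) + 1) - 1 / ((N : ℝ) + 1) := by
  induction N, h using Nat.le_induction with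
  | base => simp
  | succ N hN ih =>
    rw [Finset.sum_Icc_succ_top (by omega)]
    have hN0 : (0 : ℝ) ≤ N := Nat.cast_nonneg _
    have h2 : 1 / (((N + 1 : ℕ) : ℝ) + 1) ^ 2 ≤ 1 / ((N : ℝ) + 1) - 1 / (((N + 1 : ℕ) : ℝ) + 1) := by
      push_cast
      rw [div_sub_div _ _ (by positivity) (by positivity), div_le_div_iff₀ (by positivity) (by positivity)]
      nlinarith
    linarith

theorem tel_b (D : ℕ) (h : 2 ≤ D) : ∑ d ∈ Icc 2 D, 1 / ((d : ℝ) + 1) ≤ Real.log D := by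
  induction D, h using Nat.le_induction with
  | base =>
    simp only [Finset.Icc_self, Finset.sum_singleton, Nat.cast_ofNat]
    have := Real.log_two_gt_d9
    norm_num
    linarith
  | succ N hN ih =>
    rw [Finset.sum_Icc_succ_top (by omega)]
    have hN0 : (0 : ℝ) < N := by exact_mod_cast (by omega : 0 < N)
    have h2 : 1 / (((N + 1 : ℕ) : ℝ) + 1) ≤ Real.log ((N + 1 : ℕ) : ℝ) - Real.log N := by
      rw [← Real.log_div (by positivity) (by positivity)]
      have h3 := Real.one_sub_inv_le_log_of_pos (show 0 < ((N + 1 : ℕ) : ℝ) / N by positivity)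
      refine le_trans ?_ h3
      push_cast
      rw [inv_div, one_sub_div (by positivity)]
      apply div_le_div₀ (by linarith) (by linarith) (by positivity) (by linarith)
    linarith

end Pool.Agent.U296.ST
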